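import Pool.Agent.H.MP_68925f_co.Main

set_option autoImplicit false

namespace Pool.Agent.H.MP_68925f_co

def nm : ℕ → ℕ → ℕ → ℕ
  | 0, x, y => (x % 2) * (y % 2)
  | k + 1, x, y =>
    F k * (nm k (x / F k) (y / F k) ^^^ nm k (x / F k) y ^^^ nm k x (y / F k)) ^^^
      (nm k (H k) (nm k (x / F k) (y / F k)) ^^^ nm k x y)

theorem F_mul_xor (k u v : ℕ) : F k * (u ^^^ v) = F k * u ^^^ F k * v := by
  unfold F
  apply Nat.eq_of_testBit_eq
  intro i
  simp only [Nat.testBit_xor, Nat.testBit_two_pow_mul]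
  cases decide (i ≥ 2 ^ k) <;> simp

theorem xor_div_F (k u v : ℕ) : (u ^^^ v) / F k = u / F k ^^^ v / F k := by
  unfold F
  apply Nat.eq_of_testBit_eq
  intro i
  simp only [Nat.testBit_xor, Nat.testBit_div_two_pow]

theorem nm_lt (k : ℕ) : ∀ x y, nm k x y < F k := by
  induction k with
  | zero =>
    intro x y
    show (x % 2) * (y % 2) < 2
    rcases Nat.mod_two_eq_zero_or_one x with h | h <;>
      rcases Nat.mod_two_eq_zero_or_one y with h' | h' <;> simp [h, h']
  | succ k ih =>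
    intro x y
    exact join_lt _ _ _ (xor_ltF _ _ _ (xor_ltF _ _ _ (ih _ _) (ih _ _)) (ih _ _))
      (xor_ltF _ _ _ (ih _ _) (ih _ _))

theorem nm_comm (k : ℕ) : ∀ x y, nm k x y = nm k y x := by
  induction k with
  | zero => intro x y; exact Nat.mul_comm _ _
  | succ k ih =>
    intro x y
    simp only [nm]
    rw [ih (y / F k) (x / F k), ih (y / F k) x, ih y (x / F k), ih y x, Nat.xor_assoc,
      Nat.xor_assoc, Nat.xor_comm (nm k (x / F k) y)]

theorem nm_dist (k : ℕ) : ∀ x y z, nm k x (y ^^^ z) = nm k x y ^^^ nm k x z := by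
  induction k with
  | zero =>
    intro x y z
    simp only [nm]
    have : (y ^^^ z) % 2 = (y % 2) ^^^ (z % 2) := Nat.xor_mod_two_pow (n := 1)
    rw [this]
    rcases Nat.mod_two_eq_zero_or_one x with h | h <;> simp [h]
  | succ k ih =>
    intro x y z
    simp only [nm, xor_div_F, ih, F_mul_xor]
    ac_rfl

theorem nm_dist' (k x y z : ℕ) : nm k (x ^^^ y) z = nm k x z ^^^ nm k y z := by
  rw [nm_comm, nm_dist, nm_comm k z, nm_comm k z]

theorem nm_zero (k x : ℕ) : nm k x 0 = 0 := by simpa using nm_dist k x 0 0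
theorem nm_zero' (k x : ℕ) : nm k 0 x = 0 := by rw [nm_comm, nm_zero]

theorem nm_high (k : ℕ) : ∀ u y, nm k (F k * u) y = 0 := by
  induction k with
  | zero =>
    intro u y
    show (2 * u % 2) * (y % 2) = 0
    simp
  | succ k ih =>
    intro u y
    simp only [nm]
    rw [F_succ, Nat.mul_assoc, Nat.mul_div_cancel_left _ (F_pos k)]
    simp [ih, nm_zero]

theorem nm_high' (k u y : ℕ) : nm k y (F k * u) = 0 := by rw [nm_comm, nm_high]

theorem join_div (k u v : ℕ) (hv : v < F k) : (F k * u ^^^ v) / F k = u := by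
  rw [xor_div_F, Nat.mul_div_cancel_left _ (F_pos k), Nat.div_eq_of_lt hv, Nat.xor_zero]

theorem nm_succ_left (k u v z : ℕ) (hv : v < F k) : nm (k + 1) (F k * u ^^^ v) z =
    F k * (nm k u (z / F k) ^^^ nm k u z ^^^ nm k v (z / F k)) ^^^
      (nm k (H k) (nm k u (z / F k)) ^^^ nm k v z) := by
  simp only [nm]
  rw [join_div k u v hv, nm_dist' k (F k * u), nm_dist' k (F k * u), nm_high, nm_high,
    Nat.zero_xor, Nat.zero_xor]

theorem nm_assoc (k : ℕ) : ∀ x y z, nm k (nm k x y) z = nm k x (nm k y z) := by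
  induction k with
  | zero =>
    intro x y z
    simp only [nm]
    rcases Nat.mod_two_eq_zero_or_one x with h | h <;>
      rcases Nat.mod_two_eq_zero_or_one y with h' | h' <;>
      rcases Nat.mod_two_eq_zero_or_one z with h'' | h'' <;> simp [h, h', h'']
  | succ k ih =>
    intro x y z
    have : Std.Associative (nm k) := ⟨ih⟩
    have : Std.Commutative (nm k) := ⟨nm_comm k⟩
    rw [nm_comm (k + 1) x (nm (k + 1) y z)]
    have e : ∀ x y, nm (k + 1) x y =
      F k * (nm k (x / F k) (y / F k) ^^^ nm k (x / F k) y ^^^ nm k x (y / F k)) ^^^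
        (nm k (H k) (nm k (x / F k) (y / F k)) ^^^ nm k x y) := fun _ _ => rfl
    rw [e x y, e y z, nm_succ_left _ _ _ _ (xor_ltF _ _ _ (nm_lt _ _ _) (nm_lt _ _ _)),
      nm_succ_left _ _ _ _ (xor_ltF _ _ _ (nm_lt _ _ _) (nm_lt _ _ _))]
    simp only [nm_dist, nm_dist']
    congr 1
    · congr 1
      ac_rfl
    · ac_rfl

theorem nm_one (k : ℕ) : ∀ n, nm k 1 n = n % F k := by
  induction k with
  | zero => intro n; show (1 % 2) * (n % 2) = n % 2; simp
  | succ k ih =>
    intro n
    have h1 : 1 / F k = 0 := Nat.div_eq_of_lt (by have := H_lt k; have := H_pos k; omega)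
    simp only [nm, h1, nm_zero, nm_zero', ih, Nat.zero_xor]
    rw [xorF _ _ _ (Nat.mod_lt _ (F_pos k)), F_succ, Nat.mod_mul, Nat.add_comm]

theorem nm_compat (k x y : ℕ) (hx : x < F k) (hy : y < F k) (j : ℕ) (h : k ≤ j) :
    nm j x y = nm k x y := by
  induction j, h using Nat.le_induction with
  | base => rfl
  | succ j hj ih =>
    have h1 : x / F j = 0 := Nat.div_eq_of_lt (lt_of_lt_of_le hx (F_mono hj))
    have h2 : y / F j = 0 := Nat.div_eq_of_lt (lt_of_lt_of_le hy (F_mono hj))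
    simp [nm, h1, h2, nm_zero, nm_zero', ih]

def nim (x y : ℕ) : ℕ := nm (x + y) x y

theorem nim_eq (k x y : ℕ) (hx : x < F k) (hy : y < F k) : nim x y = nm k x y := by
  unfold nim
  rcases le_total k (x + y) with h | h
  · exact nm_compat k x y hx hy _ h
  · exact (nm_compat (x + y) x y (lt_of_lt_of_le (lt_F x) (F_mono (by omega)))
      (lt_of_lt_of_le (lt_F y) (F_mono (by omega))) _ h).symm

theorem nim_Nim : Nim nim := by
  have hl : ∀ x k, x ≤ k → x < F k := fun x k h => lt_of_lt_of_le (lt_F x) (F_mono h)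
  have hF : ∀ a, F a < F (a + 1) := fun a => by
    rw [F_succ]; have := H_lt a; have := H_pos a; nlinarith
  have hh : ∀ a y, nm a (F a) y = 0 := fun a y => by simpa using nm_high a 1 y
  have h1 : ∀ a, 1 < F a := fun a => by have := H_lt a; have := H_pos a; omega
  refine ⟨fun a n hn => ?_, fun a => ?_, fun x y z => ?_, fun x y => ?_, fun x y z => ?_⟩
  · rw [nim_eq (a + 1) _ _ (hF a) (hn.trans (hF a))]
    simp [nm, Nat.div_self (F_pos a), Nat.div_eq_of_lt hn, nm_zero, nm_one, hh, Nat.mod_eq_of_lt hn]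
  · rw [nim_eq (a + 1) _ _ (hF a) (hF a)]
    simp only [nm, Nat.div_self (F_pos a), nm_one, hh, Nat.mod_self, Nat.xor_zero,
      Nat.mod_eq_of_lt (h1 a)]
    rw [nm_comm, nm_one, Nat.mod_eq_of_lt (H_lt a), xorF _ _ _ (H_lt a)]
    have := F_eq a
    omega
  · have hx := hl x (x + y + z) (by omega)
    have hy := hl y (x + y + z) (by omega)
    have hz := hl z (x + y + z) (by omega)
    rw [nim_eq _ x y hx hy, nim_eq _ y z hy hz, nim_eq _ _ z (nm_lt _ _ _) hz,
      nim_eq _ x _ hx (nm_lt _ _ _), nm_assoc]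
  · unfold nim; rw [nm_comm, Nat.add_comm]
  · have hx := hl x (x + y + z) (by omega)
    have hy := hl y (x + y + z) (by omega)
    have hz := hl z (x + y + z) (by omega)
    rw [nim_eq _ x y hx hy, nim_eq _ x z hx hz, nim_eq _ x _ hx (xor_ltF _ _ _ hy hz), nm_dist]

end Pool.Agent.H.MP_68925f_co
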