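import Mathlib

set_option autoImplicit false

namespace Pool.Agent.H.MP_68925f_co

theorem xor_eq_add (k u v : ℕ) (hv : v < 2 ^ k) : 2 ^ k * u ^^^ v = 2 ^ k * u + v := by
  apply Nat.eq_of_testBit_eq
  intro i
  rw [Nat.testBit_xor, Nat.testBit_two_pow_mul_add _ hv, Nat.testBit_two_pow_mul]
  by_cases h : i < k
  · have : ¬ (i ≥ k) := by omega
    simp [h, this]
  · have h' : i ≥ k := by omega
    have : v.testBit i = false :=
      Nat.testBit_lt_two_pow (lt_of_lt_of_le hv (Nat.pow_le_pow_right (by norm_num) h'))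
    simp [h, h', this]

/-- `F a` is the Fermat power, `H a` its half -/
def F (a : ℕ) : ℕ := 2 ^ 2 ^ a
def H (a : ℕ) : ℕ := 2 ^ (2 ^ a - 1)

theorem F_eq (a : ℕ) : F a = 2 * H a := by
  unfold F H
  have : 2 ^ a = (2 ^ a - 1) + 1 := by have := Nat.one_le_two_pow (n := a); omega
  conv_lhs => rw [this, pow_succ]
  ring

theorem H_pos (a : ℕ) : 0 < H a := by unfold H; positivity
theorem H_lt (a : ℕ) : H a < F a := by have := F_eq a; have := H_pos a; omega
theorem F_pos (a : ℕ) : 0 < F a := by unfold F; positivity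
theorem F_succ (a : ℕ) : F (a + 1) = F a * F a := by
  unfold F; rw [← pow_add]; congr 1; ring
theorem H_succ (a : ℕ) : H (a + 1) = F a * H a := by
  unfold F H; rw [← pow_add]; congr 1
  have := Nat.one_le_two_pow (n := a)
  rw [pow_succ]; omega

theorem xorF (a u v : ℕ) (hv : v < F a) : F a * u ^^^ v = F a * u + v := xor_eq_add _ _ _ hv
theorem xor_ltF (a u v : ℕ) (hu : u < F a) (hv : v < F a) : u ^^^ v < F a :=
  Nat.xor_lt_two_pow hu hv

theorem lt_F (x : ℕ) : x < F x :=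
  lt_trans (Nat.lt_two_pow_self) (Nat.pow_lt_pow_right (by norm_num) Nat.lt_two_pow_self)

theorem F_mono {a b : ℕ} (h : a ≤ b) : F a ≤ F b :=
  Nat.pow_le_pow_right (by norm_num) (Nat.pow_le_pow_right (by norm_num) h)

theorem split (a x : ℕ) (hx : x < F (a + 1)) :
    ∃ u v, u < F a ∧ v < F a ∧ x = F a * u ^^^ v := by
  refine ⟨x / F a, x % F a, ?_, Nat.mod_lt _ (F_pos a), ?_⟩
  · rw [F_succ] at hx
    exact Nat.div_lt_of_lt_mul hx
  · rw [xorF _ _ _ (Nat.mod_lt _ (F_pos a)), Nat.div_add_mod]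

theorem join_lt (a u v : ℕ) (hu : u < F a) (hv : v < F a) : F a * u ^^^ v < F (a + 1) := by
  rw [xorF _ _ _ hv, F_succ]
  have : F a * (u + 1) ≤ F a * F a := Nat.mul_le_mul_left _ hu
  nlinarith

structure Nim (m : ℕ → ℕ → ℕ) : Prop where
  ra : ∀ a n, n < F a → m (F a) n = F a * n
  rb : ∀ a, m (F a) (F a) = 3 * F a / 2
  assoc : ∀ x y z, m (m x y) z = m x (m y z)
  comm : ∀ x y, m x y = m y x
  dist : ∀ x y z, m x (y ^^^ z) = m x y ^^^ m x z

variable {m : ℕ → ℕ → ℕ}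

theorem Nim.dist' (h : Nim m) (x y z : ℕ) : m (x ^^^ y) z = m x z ^^^ m y z := by
  rw [h.comm, h.dist, h.comm z, h.comm z]

theorem Nim.zero (h : Nim m) (x : ℕ) : m x 0 = 0 := by
  have := h.dist x 0 0
  simpa using this

theorem Nim.zero' (h : Nim m) (x : ℕ) : m 0 x = 0 := by rw [h.comm, h.zero]

theorem Nim.sqF (h : Nim m) (a : ℕ) : m (F a) (F a) = F a ^^^ H a := by
  rw [h.rb]
  have := xorF a 1 (H a) (H_lt a)
  rw [Nat.mul_one] at this
  rw [this]
  have := F_eq a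
  omega

theorem Nim.one_one (h : Nim m) : m 1 1 = 1 := by
  have h21 : m 2 1 = 2 := h.ra 0 1 (by decide)
  have h22 : m 2 2 = 3 := h.rb 0
  have h23 : m 2 3 = 1 := by
    have := h.dist 2 2 1
    rw [h21, h22] at this
    exact this
  calc m 1 1 = m (m 3 2) 1 := by rw [h.comm 3 2, h23]
    _ = m 3 2 := by rw [h.assoc, h21]
    _ = 1 := by rw [h.comm, h23]

theorem Nim.key (h : Nim m) (a x1 x0 y1 y0 : ℕ) :
    m (m (F a) x1 ^^^ x0) (m (F a) y1 ^^^ y0) =
      m (F a) (m x1 y1 ^^^ m x1 y0 ^^^ m x0 y1) ^^^ (m (H a) (m x1 y1) ^^^ m x0 y0) := by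
  haveI : Std.Associative m := ⟨h.assoc⟩
  haveI : Std.Commutative m := ⟨h.comm⟩
  have e1 : m (m (F a) x1) (m (F a) y1) = m (F a) (m x1 y1) ^^^ m (H a) (m x1 y1) := by
    rw [← h.dist', ← h.sqF]; ac_rfl
  have e2 : m (m (F a) x1) y0 = m (F a) (m x1 y0) := by ac_rfl
  have e3 : m x0 (m (F a) y1) = m (F a) (m x0 y1) := by ac_rfl
  rw [h.dist', h.dist, h.dist, h.dist, h.dist, e1, e2, e3]
  ac_rfl

theorem Nim.closed (h : Nim m) (a : ℕ) : ∀ x y, x < F a → y < F a → m x y < F a := by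
  induction a with
  | zero =>
    intro x y hx hy
    have hx' : x < 2 := hx
    have hy' : y < 2 := hy
    show m x y < 2
    interval_cases x <;> interval_cases y <;> simp [h.zero, h.zero', h.one_one]
  | succ a ih =>
    intro x y hx hy
    obtain ⟨x1, x0, a1, a0, rfl⟩ := split a x hx
    obtain ⟨y1, y0, b1, b0, rfl⟩ := split a y hy
    have c : m x1 y1 ^^^ m x1 y0 ^^^ m x0 y1 < F a :=
      xor_ltF _ _ _ (xor_ltF _ _ _ (ih _ _ a1 b1) (ih _ _ a1 b0)) (ih _ _ a0 b1)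
    rw [← h.ra a x1 a1, ← h.ra a y1 b1, h.key, h.ra _ _ c]
    exact join_lt _ _ _ c (xor_ltF _ _ _ (ih _ _ (H_lt a) (ih _ _ a1 b1)) (ih _ _ a0 b0))

theorem Nim.sq (h : Nim m) (a x1 x0 : ℕ) (a1 : x1 < F a) :
    m (F a * x1 ^^^ x0) (F a * x1 ^^^ x0) =
      F a * m x1 x1 ^^^ (m (H a) (m x1 x1) ^^^ m x0 x0) := by
  rw [← h.ra a x1 a1, h.key, h.comm x0 x1, Nat.xor_assoc (m x1 x1), Nat.xor_self, Nat.xor_zero,
    h.ra _ _ (h.closed a _ _ a1 a1)]

theorem Nim.sq_zero (h : Nim m) (a : ℕ) : ∀ x, x < F a → m x x = 0 → x = 0 := by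
  induction a with
  | zero =>
    intro x hx
    have hx' : x < 2 := hx
    interval_cases x <;> simp [h.one_one]
  | succ a ih =>
    intro x hx
    obtain ⟨x1, x0, a1, a0, rfl⟩ := split a x hx
    rw [h.sq a x1 x0 a1, xorF _ _ _ (xor_ltF _ _ _ (h.closed a _ _ (H_lt a) (h.closed a _ _ a1 a1))
      (h.closed a _ _ a0 a0))]
    intro e
    have e1 : m x1 x1 = 0 := by
      have : F a * m x1 x1 = 0 := by omega
      exact (Nat.mul_eq_zero.mp this).resolve_left (F_pos a).ne'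
    have := ih _ a1 e1
    subst this
    rw [e1, h.zero] at e
    have e0 : m x0 x0 = 0 := by simpa using e
    rw [ih _ a0 e0]
    simp

theorem Nim.one_mul (h : Nim m) (x : ℕ) : m 1 x = x := by
  suffices ∀ a x, x < F a → m 1 x = x from this x x (lt_F x)
  intro a
  induction a with
  | zero =>
    intro x hx
    have hx' : x < 2 := hx
    interval_cases x <;> simp [h.one_one, h.zero]
  | succ a ih =>
    intro x hx
    obtain ⟨x1, x0, a1, a0, rfl⟩ := split a x hx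
    rw [h.dist, ih _ a0, ← h.ra a x1 a1, ← h.assoc, h.comm 1 (F a), h.assoc, ih _ a1]

theorem Nim.H_cancel (h : Nim m) (a : ℕ) : ∀ y, m (H a) y = 0 → y = 0 := by
  induction a with
  | zero =>
    intro y hy
    have : H 0 = 1 := rfl
    rwa [this, h.one_mul] at hy
  | succ a ih =>
    intro y hy
    rw [H_succ, ← h.ra a _ (H_lt a), h.assoc] at hy
    apply ih
    apply ih
    have e : H a = m (F a ^^^ 1) (F a) := by
      rw [h.dist', h.sqF, h.one_mul, Nat.xor_comm (F a), Nat.xor_assoc, Nat.xor_self, Nat.xor_zero]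
    calc m (H a) (m (H a) y) = m (m (F a ^^^ 1) (F a)) (m (H a) y) := by rw [← e]
      _ = 0 := by rw [h.assoc, hy, h.zero]

theorem Nim.exists_one (h : Nim m) (a : ℕ) : ∃ x, x < F a ∧ m (H a) (m x x) = 1 := by
  let f : Fin (F a) → Fin (F a) := fun x =>
    ⟨m (H a) (m x x), h.closed a _ _ (H_lt a) (h.closed a _ _ x.isLt x.isLt)⟩
  have hf : Function.Injective f := by
    intro x y e
    have e' : m (H a) (m x x) = m (H a) (m y y) := congrArg Fin.val e
    have e2 : m (x.val ^^^ y.val) (x.val ^^^ y.val) = m x x ^^^ m y y := by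
      rw [h.dist', h.dist, h.dist, h.comm y x, Nat.xor_assoc, ← Nat.xor_assoc (m x y),
        Nat.xor_self, Nat.zero_xor]
    have e3 : m (H a) (m (x.val ^^^ y.val) (x.val ^^^ y.val)) = 0 := by
      rw [e2, h.dist, e', Nat.xor_self]
    have e4 := h.sq_zero a _ (xor_ltF a _ _ x.isLt y.isLt) (h.H_cancel a _ e3)
    exact Fin.ext (Nat.xor_eq_zero_iff.mp e4)
  have h1 : 1 < F a := by have := H_lt a; have := H_pos a; omega
  obtain ⟨x, hx⟩ := Finite.injective_iff_surjective.mp hf ⟨1, h1⟩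
  exact ⟨x, x.isLt, congrArg Fin.val hx⟩

theorem Nim.sq0 (h : Nim m) (a x : ℕ) (hx : x < F a) :
    m (F a * x) (F a * x) = F a * m x x + m (H a) (m x x) := by
  have := h.sq a x 0 hx
  rw [h.zero, Nat.xor_zero, Nat.xor_zero,
    xorF _ _ _ (h.closed a _ _ (H_lt a) (h.closed a _ _ hx hx))] at this
  exact this

theorem Nim.odd (h : Nim m) (a : ℕ) : ∃ x, x < F a ∧ m (F a * x) (F a * x) % 2 = 1 := by
  obtain ⟨x, hx, e⟩ := h.exists_one a
  refine ⟨x, hx, ?_⟩
  rw [h.sq0 a x hx, e, F_eq, Nat.mul_assoc]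
  omega

theorem Nim.even (h : Nim m) (a y : ℕ) (hy : y < F a) :
    m (F (a + 1) * y) (F (a + 1) * y) % 2 = 0 := by
  have c := h.closed a _ _ (H_lt a) (h.closed a _ _ hy hy)
  rw [h.sq0 (a + 1) y (lt_of_lt_of_le hy (F_mono (Nat.le_succ a))), H_succ, ← h.ra a _ (H_lt a),
    h.assoc, h.ra a _ c, F_eq (a + 1), F_eq a, Nat.mul_assoc, Nat.mul_assoc 2 (H a)]
  omega

theorem Nim.not_periodic (h : Nim m) (e p : ℕ) (hp : 0 < p)
    (hper : ∀ n, m (2 ^ e * n) (2 ^ e * n) % 2 = m (2 ^ (e + p) * n) (2 ^ (e + p) * n) % 2) :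
    False := by
  have hk : ∀ k n, m (2 ^ e * n) (2 ^ e * n) % 2 =
      m (2 ^ (e + k * p) * n) (2 ^ (e + k * p) * n) % 2 := by
    intro k
    induction k with
    | zero => simp
    | succ k ih =>
      intro n
      have e1 : 2 ^ (e + k * p) * n = 2 ^ e * (2 ^ (k * p) * n) := by ring
      have e2 : 2 ^ (e + (k + 1) * p) * n = 2 ^ (e + p) * (2 ^ (k * p) * n) := by ring
      rw [ih, e1, e2, hper]
  obtain ⟨x, hx, hodd⟩ := h.odd e
  have he : e < 2 ^ e := Nat.lt_two_pow_self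
  set b := e + p with hb
  have hb1 : 2 ^ e + p ≤ 2 ^ b := by
    have : p + 1 ≤ 2 ^ p := Nat.lt_two_pow_self
    have h1 := Nat.one_le_two_pow (n := e)
    rw [hb, pow_add]
    nlinarith
  have hb2 : 2 ^ (b + 1) = 2 * 2 ^ b := by ring
  set D := 2 ^ (b + 1) - 2 ^ e with hD
  have hdm := Nat.div_add_mod D p
  have hmod := Nat.mod_lt D hp
  set t := p - D % p with ht
  have hsum : 2 ^ e + (D / p + 1) * p = 2 ^ (b + 1) + t := by
    have : (D / p + 1) * p = p * (D / p) + p := by ring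
    omega
  have := hk (D / p + 1) (2 ^ (2 ^ e - e) * x)
  have e1 : 2 ^ e * (2 ^ (2 ^ e - e) * x) = F e * x := by
    unfold F
    rw [← Nat.mul_assoc, ← pow_add]
    congr 2; omega
  have e2 : 2 ^ (e + (D / p + 1) * p) * (2 ^ (2 ^ e - e) * x) = F (b + 1) * (2 ^ t * x) := by
    unfold F
    rw [← Nat.mul_assoc, ← pow_add, ← Nat.mul_assoc, ← pow_add]
    congr 2; omega
  have hy : 2 ^ t * x < F b := by
    calc 2 ^ t * x < 2 ^ t * F e := Nat.mul_lt_mul_of_pos_left hx (by positivity)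
      _ = 2 ^ (t + 2 ^ e) := by unfold F; rw [pow_add]
      _ ≤ F b := Nat.pow_le_pow_right (by norm_num) (by omega)
  rw [e1, e2, hodd, h.even b _ hy] at this
  omega

theorem fg_repeat {ι : Type} (S : Set (ι → ℤ)) (hS : (Submodule.span ℤ S).FG) (g : ℕ → ι → ℤ)
    (hg : ∀ e, g e ∈ S) : ∃ e p, 0 < p ∧ ∀ i, (g e i : ZMod 2) = (g (e + p) i : ZMod 2) := by
  let π : (ι → ℤ) →ₗ[ℤ] (ι → ZMod 2) := (Int.castAddHom (ZMod 2)).toIntLinearMap.compLeft ι
  have hfg : ((Submodule.span ℤ S).map π).FG := hS.map π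
  haveI : Module.Finite ℤ ((Submodule.span ℤ S).map π) := Module.Finite.iff_fg.mpr hfg
  have htor : Module.IsTorsion ℤ ((Submodule.span ℤ S).map π) := by
    intro x
    refine ⟨⟨2, by simp⟩, ?_⟩
    ext i
    have : (2 : ZMod 2) = 0 := rfl
    simp [Submonoid.smul_def, this]
  haveI := Module.finite_of_fg_torsion _ htor
  let G : ℕ → ((Submodule.span ℤ S).map π) := fun e =>
    ⟨π (g e), Submodule.mem_map_of_mem (Submodule.subset_span (hg e))⟩
  obtain ⟨x, y, hne, hxy⟩ := Finite.exists_ne_map_eq_of_infinite G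
  have hxy' : ∀ i, (g x i : ZMod 2) = (g y i : ZMod 2) := fun i =>
    congrFun (congrArg Subtype.val hxy) i
  rcases lt_or_gt_of_ne hne with hlt | hlt
  · refine ⟨x, y - x, by omega, fun i => ?_⟩
    rw [show x + (y - x) = y by omega]; exact hxy' i
  · refine ⟨y, x - y, by omega, fun i => ?_⟩
    rw [show y + (x - y) = x by omega]; exact (hxy' i).symm

theorem mod_two_of_cast (a b : ℕ) (h : (((a : ℤ)) : ZMod 2) = ((b : ℤ) : ZMod 2)) : a % 2 = b % 2 := by
  simp only [Int.cast_natCast] at h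
  exact (ZMod.natCast_eq_natCast_iff' a b 2).mp h

end Pool.Agent.H.MP_68925f_co
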